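import Mathlib

set_option autoImplicit false

open Metric Set

namespace Pool.Agent.Results.MP_975509_gt.NoTriple

/-- star at `0` has length 2, triangle `123` has length 3 -/
def d1 : Fin 4 → Fin 4 → ℕ := ![![0,2,2,2],![2,0,3,3],![2,3,0,3],![2,3,3,0]]
/-- `01, 02` have length 2, `03` has length 4, the rest 3 -/
def d2 : Fin 4 → Fin 4 → ℕ := ![![0,2,2,4],![2,0,3,3],![2,3,0,3],![4,3,3,0]]
/-- star at `0` has length 3, triangle `123` has length 4 -/
def d3 : Fin 4 → Fin 4 → ℕ := ![![0,3,3,3],![3,0,4,4],![3,4,0,4],![3,4,4,0]]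

theorem d1_0 : ∀ i j, d1 i j = 0 ↔ i = j := by decide
theorem d1_s : ∀ i j, d1 i j = d1 j i := by decide
theorem d1_t : ∀ i j k, d1 i k ≤ d1 i j + d1 j k := by decide
theorem d2_0 : ∀ i j, d2 i j = 0 ↔ i = j := by decide
theorem d2_s : ∀ i j, d2 i j = d2 j i := by decide
theorem d2_t : ∀ i j k, d2 i k ≤ d2 i j + d2 j k := by decide
theorem d3_0 : ∀ i j, d3 i j = 0 ↔ i = j := by decide
theorem d3_s : ∀ i j, d3 i j = d3 j i := by decide
theorem d3_t : ∀ i j k, d3 i k ≤ d3 i j + d3 j k := by decide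

/-- A matrix of natural numbers that is a metric on four points. -/
structure Dst where
  d : Fin 4 → Fin 4 → ℕ
  h0 : ∀ i j, d i j = 0 ↔ i = j
  hs : ∀ i j, d i j = d j i
  ht : ∀ i j k, d i k ≤ d i j + d j k

/-- The four-point space carrying a given metric. -/
structure Pt (D : Dst) where
  v : Fin 4

noncomputable instance (D : Dst) : MetricSpace (Pt D) where
  dist := fun x y => ((D.d x.v y.v : ℕ) : ℝ)
  dist_self := fun x => by
    show ((D.d x.v x.v : ℕ) : ℝ) = 0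
    exact_mod_cast (D.h0 x.v x.v).2 rfl
  dist_comm := fun x y => by
    show ((D.d x.v y.v : ℕ) : ℝ) = D.d y.v x.v
    exact_mod_cast D.hs x.v y.v
  dist_triangle := fun x y z => by
    show ((D.d x.v z.v : ℕ) : ℝ) ≤ D.d x.v y.v + D.d y.v z.v
    exact_mod_cast D.ht x.v y.v z.v
  eq_of_dist_eq_zero := fun {x y} h => by
    have h' : ((D.d x.v y.v : ℕ) : ℝ) = 0 := h
    have h2 : x.v = y.v := (D.h0 x.v y.v).1 (by exact_mod_cast h')
    cases x; cases y; simpa using h2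

instance (D : Dst) : Finite (Pt D) :=
  Finite.of_injective (fun x : Pt D => x.v) (fun x y h => by cases x; cases y; simpa using h)

instance (D : Dst) : Nonempty (Pt D) := ⟨⟨0⟩⟩

theorem dist_def (D : Dst) (x y : Pt D) : dist x y = ((D.d x.v y.v : ℕ) : ℝ) := rfl

/-- first space -/
def D1 : Dst := ⟨d1, d1_0, d1_s, d1_t⟩
/-- second space -/
def D2 : Dst := ⟨d2, d2_0, d2_s, d2_t⟩
/-- third space -/
def D3 : Dst := ⟨d3, d3_0, d3_s, d3_t⟩

/-- a map giving the upper bound for the first Gromov-Hausdorff distance -/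
def f12 : Fin 4 → Fin 4 := ![1,0,2,3]

theorem f12_surj : ∀ y, ∃ x, f12 x = y := by decide
theorem f12_close : ∀ i j, d1 i j ≤ d2 (f12 i) (f12 j) + 1 ∧ d2 (f12 i) (f12 j) ≤ d1 i j + 1 := by
  decide
theorem f13_close : ∀ i j, d1 i j ≤ d3 i j + 1 ∧ d3 i j ≤ d1 i j + 1 := by decide
theorem f23_close : ∀ i j, d2 i j ≤ d3 i j + 1 ∧ d3 i j ≤ d2 i j + 1 := by decide

/-- upper bound of the Gromov-Hausdorff distance by half of the distortion of a surjection -/
theorem gh_le {X Y : Type} [MetricSpace X] [CompactSpace X] [Nonempty X]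
    [MetricSpace Y] [CompactSpace Y] [Nonempty Y] (f : X → Y) (hf : ∀ y, ∃ x, f x = y)
    (H : ∀ x x', |dist x x' - dist (f x) (f x')| ≤ 1) :
    GromovHausdorff.ghDist X Y ≤ 1 / 2 := by
  have := GromovHausdorff.ghDist_le_of_approx_subsets (s := (Set.univ : Set X))
    (fun x => f x.1) (ε₁ := 0) (ε₂ := 1) (ε₃ := 0) (fun x => ⟨x, Set.mem_univ _, by simp⟩)
    (fun y => by
      obtain ⟨x, hx⟩ := hf y
      exact ⟨⟨x, Set.mem_univ _⟩, by simp [hx]⟩)
    (fun x y => H x.1 y.1)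
  linarith

/-- a near-optimal selection -/
theorem select {X Y Z : Type*} [MetricSpace X] [CompactSpace X] [Nonempty X]
    [MetricSpace Y] [CompactSpace Y] [Nonempty Y] [MetricSpace Z] (φ : X → Z) (ψ : Y → Z)
    (hφ : Isometry φ) (hψ : Isometry ψ) {r : ℝ}
    (h : hausdorffDist (range φ) (range ψ) < r) (x : X) : ∃ y : Y, dist (φ x) (ψ y) < r := by
  have hfin : hausdorffEDist (range φ) (range ψ) ≠ ⊤ :=
    Metric.hausdorffEDist_ne_top_of_nonempty_of_bounded (range_nonempty _) (range_nonempty _)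
      (isCompact_range hφ.continuous).isBounded (isCompact_range hψ.continuous).isBounded
  obtain ⟨y, ⟨y', rfl⟩, hy⟩ :=
    Metric.exists_dist_lt_of_hausdorffDist_lt (mem_range_self x) h hfin
  exact ⟨y', hy⟩

theorem comb13 : ∀ h : Fin 4 → Fin 4,
    (∀ x y, d1 x y ≤ d3 (h x) (h y) + 1 ∧ d3 (h x) (h y) ≤ d1 x y + 1) → h 0 = 0 := by
  decide +kernel
theorem comb23 : ∀ h : Fin 4 → Fin 4,
    (∀ x y, d2 x y ≤ d3 (h x) (h y) + 1 ∧ d3 (h x) (h y) ≤ d2 x y + 1) → h 0 = 0 := by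
  decide +kernel
theorem comb12 : ∀ h : Fin 4 → Fin 4,
    (∀ x y, d1 x y ≤ d2 (h x) (h y) + 1 ∧ d2 (h x) (h y) ≤ d1 x y + 1) → d2 0 (h 0) = 2 := by
  decide +kernel

theorem nat_of_real {a b : ℕ} (h : |(a : ℝ) - b| < 4 / 3) : a ≤ b + 1 ∧ b ≤ a + 1 := by
  rw [abs_lt] at h
  obtain ⟨h1, h2⟩ := h
  constructor
  · by_contra hc
    push Not at hc
    have : ((b + 2 : ℕ) : ℝ) ≤ a := by exact_mod_cast hc
    push_cast at this
    linarith
  · by_contra hc
    push Not at hc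
    have : ((a + 2 : ℕ) : ℝ) ≤ b := by exact_mod_cast hc
    push_cast at this
    linarith

theorem real_of_nat {a b : ℕ} (h : a ≤ b + 1 ∧ b ≤ a + 1) : |(a : ℝ) - b| ≤ 1 := by
  rw [abs_le]
  have h1 : (a : ℝ) ≤ b + 1 := by exact_mod_cast h.1
  have h2 : (b : ℝ) ≤ a + 1 := by exact_mod_cast h.2
  constructor <;> linarith

/-- The distortion of a near-optimal selection is small. -/
theorem distort {X Y Z : Type*} [MetricSpace X] [MetricSpace Y] [MetricSpace Z]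
    (φ : X → Z) (ψ : Y → Z) (hφ : Isometry φ) (hψ : Isometry ψ) (f : X → Y)
    (hf : ∀ x, dist (φ x) (ψ (f x)) < 2 / 3) (x x' : X) :
    |dist x x' - dist (f x) (f x')| < 4 / 3 := by
  rw [← hφ.dist_eq x x', ← hψ.dist_eq (f x) (f x')]
  have h1 := hf x
  have h2 := hf x'
  have h3 := dist_triangle4 (φ x) (ψ (f x)) (ψ (f x')) (φ x')
  have h4 := dist_triangle4 (ψ (f x)) (φ x) (φ x') (ψ (f x'))
  rw [dist_comm (ψ (f x')) (φ x')] at h3
  rw [dist_comm (ψ (f x)) (φ x)] at h4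
  rw [abs_lt]
  constructor <;> linarith

/-- combinatorial form of `distort` -/
theorem distort' {D D' : Dst} {Z : Type*} [MetricSpace Z]
    (φ : Pt D → Z) (ψ : Pt D' → Z) (hφ : Isometry φ) (hψ : Isometry ψ) (f : Pt D → Pt D')
    (hf : ∀ x, dist (φ x) (ψ (f x)) < 2 / 3) (x y : Fin 4) :
    D.d x y ≤ D'.d (f ⟨x⟩).v (f ⟨y⟩).v + 1 ∧ D'.d (f ⟨x⟩).v (f ⟨y⟩).v ≤ D.d x y + 1 := by
  have := distort φ ψ hφ hψ f hf ⟨x⟩ ⟨y⟩
  rw [dist_def, dist_def] at this
  exact nat_of_real this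

/-- **Main theorem.** There are three compact (indeed four-point) metric spaces `X₁`, `X₂`, `X₃`
such that for all isometric embeddings of them into one metric space `Z` (compact or not), one of
the three pairwise Hausdorff distances exceeds the corresponding Gromov-Hausdorff distance by at
least `1/6`. In particular the three Gromov-Hausdorff distances are never realized simultaneously.
-/
theorem result.{u} :
    ∃ (X₁ X₂ X₃ : Type) (_ : MetricSpace X₁) (_ : MetricSpace X₂) (_ : MetricSpace X₃)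
      (_ : CompactSpace X₁) (_ : CompactSpace X₂) (_ : CompactSpace X₃)
      (_ : Nonempty X₁) (_ : Nonempty X₂) (_ : Nonempty X₃),
      ∀ (Z : Type u) [MetricSpace Z] (φ₁ : X₁ → Z) (φ₂ : X₂ → Z) (φ₃ : X₃ → Z),
        Isometry φ₁ → Isometry φ₂ → Isometry φ₃ →
        (GromovHausdorff.ghDist X₁ X₂ + 1 / 6 ≤ hausdorffDist (range φ₁) (range φ₂) ∨
         GromovHausdorff.ghDist X₂ X₃ + 1 / 6 ≤ hausdorffDist (range φ₂) (range φ₃) ∨
         GromovHausdorff.ghDist X₁ X₃ + 1 / 6 ≤ hausdorffDist (range φ₁) (range φ₃)) := by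
  refine ⟨Pt D1, Pt D2, Pt D3, inferInstance, inferInstance, inferInstance, inferInstance,
    inferInstance, inferInstance, inferInstance, inferInstance, inferInstance, ?_⟩
  intro Z _ φ₁ φ₂ φ₃ h1 h2 h3
  by_contra hcon
  push Not at hcon
  obtain ⟨e12, e23, e13⟩ := hcon
  have u12 : GromovHausdorff.ghDist (Pt D1) (Pt D2) ≤ 1 / 2 :=
    gh_le (fun x => ⟨f12 x.v⟩) (fun y => by
        obtain ⟨x, hx⟩ := f12_surj y.v
        exact ⟨⟨x⟩, by rw [hx]⟩)
      (fun x x' => by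
        rw [dist_def, dist_def]; exact real_of_nat (f12_close x.v x'.v))
  have u23 : GromovHausdorff.ghDist (Pt D2) (Pt D3) ≤ 1 / 2 :=
    gh_le (fun x => ⟨x.v⟩) (fun y => ⟨⟨y.v⟩, rfl⟩) (fun x x' => by
      rw [dist_def, dist_def]; exact real_of_nat (f23_close x.v x'.v))
  have u13 : GromovHausdorff.ghDist (Pt D1) (Pt D3) ≤ 1 / 2 :=
    gh_le (fun x => ⟨x.v⟩) (fun y => ⟨⟨y.v⟩, rfl⟩) (fun x x' => by
      rw [dist_def, dist_def]; exact real_of_nat (f13_close x.v x'.v))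
  have s12 : hausdorffDist (range φ₁) (range φ₂) < 2 / 3 := by linarith
  have s23 : hausdorffDist (range φ₂) (range φ₃) < 2 / 3 := by linarith
  have s13 : hausdorffDist (range φ₁) (range φ₃) < 2 / 3 := by linarith
  choose f hf using select φ₁ φ₂ h1 h2 s12
  choose g hg using select φ₂ φ₃ h2 h3 s23
  choose h hh using select φ₁ φ₃ h1 h3 s13
  have cf : d2 0 (f ⟨0⟩).v = 2 := comb12 (fun x => (f ⟨x⟩).v) (distort' φ₁ φ₂ h1 h2 f hf)
  have cg : (g ⟨0⟩).v = 0 := comb23 (fun x => (g ⟨x⟩).v) (distort' φ₂ φ₃ h2 h3 g hg)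
  have ch : (h ⟨0⟩).v = 0 := comb13 (fun x => (h ⟨x⟩).v) (distort' φ₁ φ₃ h1 h3 h hh)
  have cgh : g ⟨0⟩ = h ⟨0⟩ := by
    rcases hg0 : g ⟨0⟩ with ⟨a⟩
    rcases hh0 : h ⟨0⟩ with ⟨b⟩
    rw [hg0] at cg
    rw [hh0] at ch
    simp only at cg ch
    rw [cg, ch]
  have a1 := hf ⟨0⟩
  have a2 := hg ⟨0⟩
  have a3 := hh ⟨0⟩
  rw [cgh] at a2
  have a4 : dist (φ₂ ⟨0⟩) (φ₂ (f ⟨0⟩)) = 2 := by
    rw [h2.dist_eq, dist_def]
    exact_mod_cast cf
  have a5 := dist_triangle4 (φ₂ ⟨0⟩) (φ₃ (h ⟨0⟩)) (φ₁ ⟨0⟩) (φ₂ (f ⟨0⟩))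
  rw [dist_comm (φ₃ (h ⟨0⟩)) (φ₁ ⟨0⟩)] at a5
  linarith

end Pool.Agent.Results.MP_975509_gt.NoTriple
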